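import Mathlib

/-!
# Entropy deficits of probability distributions on `I → W`

`mass P S x` is the marginal probability of the coordinates in `S`, `defi P S` is the entropy
deficit `|S| log |W| - H(x_S)`, and `resample P u N` is the distribution obtained by
resampling the coordinate `u` according to its conditional law given the coordinates in `N`.
-/

namespace Q112.Sid

open Finset

variable {I W : Type} [Fintype I] [DecidableEq I] [Fintype W] [DecidableEq W]

/-- Marginal probability. -/
def mass (P : (I → W) → ℝ) (S : Finset I) (x : I → W) : ℝ :=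
  ∑ y ∈ univ.filter (fun y : I → W => ∀ i ∈ S, y i = x i), P y

/-- Entropy deficit. -/
noncomputable def defi (P : (I → W) → ℝ) (S : Finset I) : ℝ :=
  ∑ x, P x * Real.log ((Fintype.card W : ℝ) ^ S.card * mass P S x)

/-- A probability distribution. -/
structure IsProb (P : (I → W) → ℝ) : Prop where
  nonneg : ∀ x, 0 ≤ P x
  sum_one : ∑ x, P x = 1

variable {P : (I → W) → ℝ}

lemma mass_nonneg (hP : ∀ x, 0 ≤ P x) (S : Finset I) (x : I → W) : 0 ≤ mass P S x :=
  sum_nonneg fun y _ => hP y

lemma le_mass (hP : ∀ x, 0 ≤ P x) (S : Finset I) (x : I → W) : P x ≤ mass P S x :=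
  single_le_sum (f := P) (fun y _ => hP y) (by simp)

lemma mass_congr (S : Finset I) {x x' : I → W} (h : ∀ i ∈ S, x i = x' i) :
    mass P S x = mass P S x' := by
  unfold mass
  refine sum_congr ?_ fun _ _ => rfl
  ext y
  simp only [mem_filter, mem_univ, true_and]
  exact ⟨fun h' i hi => (h' i hi).trans (h i hi), fun h' i hi => (h' i hi).trans (h i hi).symm⟩

lemma mass_anti (hP : ∀ x, 0 ≤ P x) {S T : Finset I} (h : S ⊆ T) (x : I → W) :
    mass P T x ≤ mass P S x := by
  unfold mass
  apply sum_le_sum_of_subset_of_nonneg
  · intro y hy
    simp only [mem_filter, mem_univ, true_and] at hy ⊢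
    exact fun i hi => hy i (h hi)
  · intro y _ _
    exact hP y

lemma mass_empty (hP : IsProb P) (x : I → W) : mass P ∅ x = 1 := by
  unfold mass
  simp [hP.sum_one]

lemma mass_univ (x : I → W) : mass P univ x = P x := by
  unfold mass
  rw [sum_eq_single x]
  · intro y hy hne
    simp only [mem_filter, mem_univ, true_and, true_implies] at hy
    exact absurd (funext hy) hne
  · intro h
    simp at h

/-- Number of functions agreeing with a given one on `S`. -/
lemma card_agree (S : Finset I) (x : I → W) :
    (univ.filter fun y : I → W => ∀ i ∈ S, y i = x i).card =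
      Fintype.card W ^ (Fintype.card I - S.card) := by
  have h1 : (univ.filter fun y : I → W => ∀ i ∈ S, y i = x i) =
      Fintype.piFinset fun i => if i ∈ S then {x i} else univ := by
    ext y
    simp only [mem_filter, mem_univ, true_and, Fintype.mem_piFinset]
    constructor
    · intro h i
      split_ifs with hi
      · simp [h i hi]
      · simp
    · intro h i hi
      have := h i
      rw [if_pos hi] at this
      simpa using this
  rw [h1, Fintype.card_piFinset]
  have h2 : ∀ i : I, (if i ∈ S then ({x i} : Finset W) else univ).card =
      if i ∈ S then 1 else Fintype.card W := by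
    intro i
    split_ifs <;> simp
  simp_rw [h2]
  rw [prod_ite]
  simp only [prod_const_one, one_mul, prod_const]
  congr 1
  rw [filter_not, filter_mem_eq_inter, univ_inter, card_sdiff_of_subset (subset_univ _), card_univ]

/-- Expectation of a function that only depends on the coordinates in `S`. -/
lemma sum_mass_mul (S : Finset I) (φ : (I → W) → ℝ)
    (hφ : ∀ x x', (∀ i ∈ S, x i = x' i) → φ x = φ x') :
    ∑ x, mass P S x * φ x =
      (Fintype.card W : ℝ) ^ (Fintype.card I - S.card) * ∑ x, P x * φ x := by
  unfold mass
  simp_rw [sum_mul]
  simp_rw [sum_filter]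
  rw [sum_comm, mul_sum]
  refine sum_congr rfl fun y _ => ?_
  rw [← sum_filter]
  have h1 : ∀ x ∈ univ.filter (fun x : I → W => ∀ i ∈ S, y i = x i), P y * φ x = P y * φ y := by
    intro x hx
    simp only [mem_filter, mem_univ, true_and] at hx
    rw [hφ y x hx]
  rw [sum_congr rfl h1, sum_const, nsmul_eq_mul]
  have h2 : (univ.filter fun x : I → W => ∀ i ∈ S, y i = x i).card =
      Fintype.card W ^ (Fintype.card I - S.card) := by
    rw [← card_agree S y]
    congr 1
    ext x
    simp only [mem_filter, mem_univ, true_and]
    exact ⟨fun h i hi => (h i hi).symm, fun h i hi => (h i hi).symm⟩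
  rw [h2]
  push_cast
  ring

lemma expect_congr [Nonempty W] {P Q : (I → W) → ℝ} (S : Finset I)
    (h : ∀ x, mass P S x = mass Q S x)
    (φ : (I → W) → ℝ) (hφ : ∀ x x', (∀ i ∈ S, x i = x' i) → φ x = φ x') :
    ∑ x, P x * φ x = ∑ x, Q x * φ x := by
  have h1 := sum_mass_mul (P := P) S φ hφ
  have h2 := sum_mass_mul (P := Q) S φ hφ
  have h3 : (0 : ℝ) < (Fintype.card W : ℝ) ^ (Fintype.card I - S.card) := by
    have : 0 < Fintype.card W := Fintype.card_pos
    positivity
  simp_rw [h] at h1
  rw [h1] at h2
  exact mul_left_cancel₀ h3.ne' h2

lemma defi_empty (hP : IsProb P) : defi P ∅ = 0 := by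
  unfold defi
  apply sum_eq_zero
  intro x _
  rw [mass_empty hP]
  simp

/-- Monotonicity of the deficit. -/
lemma defi_mono [Nonempty W] (hP : IsProb P) {S T : Finset I} (h : S ⊆ T) :
    defi P S ≤ defi P T := by
  have hn : (0 : ℝ) < Fintype.card W := by exact_mod_cast Fintype.card_pos
  set n : ℝ := (Fintype.card W : ℝ) with hndef
  -- the ratio
  let φ : (I → W) → ℝ := fun x => mass P S x / (n ^ (T.card - S.card) * mass P T x)
  have hφ : ∀ x x' : I → W, (∀ i ∈ T, x i = x' i) → φ x = φ x' := by
    intro x x' hx
    simp only [φ]
    rw [mass_congr T hx, mass_congr S (fun i hi => hx i (h hi))]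
  have hcard : S.card ≤ T.card := card_le_card h
  have h1 : ∑ x, P x * φ x ≤ 1 := by
    have h2 := sum_mass_mul (P := P) T φ hφ
    have h3 : ∑ x, mass P T x * φ x ≤ ∑ x, mass P S x * (1 / n ^ (T.card - S.card)) := by
      apply sum_le_sum
      intro x _
      simp only [φ]
      by_cases h0 : mass P T x = 0
      · rw [h0]
        simp only [mul_zero, div_zero]
        exact mul_nonneg (mass_nonneg hP.nonneg S x) (by positivity)
      · apply le_of_eq
        field_simp
    have h4 := sum_mass_mul (P := P) S (fun _ => 1 / n ^ (T.card - S.card)) (fun _ _ _ => rfl)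
    rw [h4, ← sum_mul, hP.sum_one, one_mul] at h3
    rw [h2] at h3
    have hTI : T.card ≤ Fintype.card I := card_le_univ T
    have h5 : n ^ (Fintype.card I - S.card) =
        n ^ (Fintype.card I - T.card) * n ^ (T.card - S.card) := by
      rw [← pow_add]
      congr 1
      omega
    rw [← hndef, h5] at h3
    have h6 : (0 : ℝ) < n ^ (Fintype.card I - T.card) := by positivity
    have h7 : (0 : ℝ) < n ^ (T.card - S.card) := by positivity
    have h8 : n ^ (Fintype.card I - T.card) * n ^ (T.card - S.card) *
        (1 / n ^ (T.card - S.card)) = n ^ (Fintype.card I - T.card) * 1 := by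
      field_simp
    rw [h8] at h3
    exact le_of_mul_le_mul_left h3 h6
  have h9 : defi P S - defi P T ≤ ∑ x, P x * φ x - 1 := by
    rw [← hP.sum_one]
    unfold defi
    rw [← sum_sub_distrib, ← sum_sub_distrib]
    apply sum_le_sum
    intro x _
    rcases eq_or_lt_of_le (hP.nonneg x) with h0 | h0
    · rw [← h0]; simp
    · have hS : 0 < mass P S x := lt_of_lt_of_le h0 (le_mass hP.nonneg S x)
      have hT : 0 < mass P T x := lt_of_lt_of_le h0 (le_mass hP.nonneg T x)
      have h10 : Real.log (n ^ S.card * mass P S x) - Real.log (n ^ T.card * mass P T x) =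
          Real.log (φ x) := by
        rw [← Real.log_div (by positivity) (by positivity)]
        congr 1
        simp only [φ]
        have : n ^ T.card = n ^ S.card * n ^ (T.card - S.card) := by
          rw [← pow_add]
          congr 1
          omega
        rw [this]
        field_simp
      have hφpos : 0 < φ x := by
        simp only [φ]
        positivity
      rw [← mul_sub, h10]
      have h11 := Real.log_le_sub_one_of_pos hφpos
      nlinarith
  linarith

lemma defi_nonneg [Nonempty W] (hP : IsProb P) (S : Finset I) : 0 ≤ defi P S := by
  rw [← defi_empty hP]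
  exact defi_mono hP (empty_subset S)

/-- If two coordinates agree almost surely, they can be interchanged. -/
lemma defi_swap {a b : I} (h : ∀ x, P x ≠ 0 → x a = x b) {N : Finset I} (ha : a ∉ N)
    (hb : b ∉ N) : defi P (insert a N) = defi P (insert b N) := by
  unfold defi
  refine sum_congr rfl fun x _ => ?_
  by_cases hx : P x = 0
  · rw [hx]; simp
  rw [card_insert_of_notMem ha, card_insert_of_notMem hb]
  congr 3
  unfold mass
  rw [sum_filter, sum_filter]
  refine sum_congr rfl fun y _ => ?_
  by_cases hy : P y = 0
  · rw [hy]; simp
  have : (∀ i ∈ insert a N, y i = x i) ↔ ∀ i ∈ insert b N, y i = x i := by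
    simp only [forall_mem_insert]
    rw [h x hx, h y hy]
  simp only [this]

/-! ### Resampling -/

/-- Resampling the coordinate `u` from its conditional law given the coordinates in `N`. -/
noncomputable def resample (P : (I → W) → ℝ) (u : I) (N : Finset I) : (I → W) → ℝ :=
  fun x => mass P (univ.erase u) x * (mass P (insert u N) x / mass P N x)

lemma sum_mass_erase {u : I} (S : Finset I) (hu : u ∉ S) (x : I → W) :
    ∑ y ∈ univ.filter (fun y : I → W => ∀ i ∈ insert u S, y i = x i),
      mass P (univ.erase u) y = mass P S x := by
  unfold mass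
  rw [sum_filter, sum_filter]
  have h1 : ∀ y : I → W, (if ∀ i ∈ insert u S, y i = x i then
      ∑ z ∈ univ.filter (fun z : I → W => ∀ i ∈ univ.erase u, z i = y i), P z else 0) =
      ∑ z, if (∀ i ∈ insert u S, y i = x i) ∧ (∀ i ∈ univ.erase u, z i = y i) then P z
        else 0 := by
    intro y
    split_ifs with h
    · rw [sum_filter]
      refine sum_congr rfl fun z _ => ?_
      have h' : ((∀ i ∈ insert u S, y i = x i) ∧ ∀ i ∈ univ.erase u, z i = y i) ↔
          ∀ i ∈ univ.erase u, z i = y i := ⟨And.right, fun h'' => ⟨h, h''⟩⟩
      simp only [h']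
    · symm
      apply sum_eq_zero
      intro z _
      rw [if_neg (fun h' => h h'.1)]
  rw [sum_congr rfl fun y _ => h1 y, sum_comm]
  refine sum_congr rfl fun z _ => ?_
  -- the only possible `y` is `update z u (x u)`
  rw [sum_eq_single (Function.update z u (x u))]
  · have h2 : ((∀ i ∈ insert u S, Function.update z u (x u) i = x i) ∧
        ∀ i ∈ univ.erase u, z i = Function.update z u (x u) i) ↔ ∀ i ∈ S, z i = x i := by
      constructor
      · rintro ⟨h, _⟩ i hi
        have h3 := h i (mem_insert_of_mem hi)
        rwa [Function.update_of_ne (ne_of_mem_of_not_mem hi hu)] at h3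
      · intro h
        refine ⟨?_, ?_⟩
        · intro i hi
          rcases mem_insert.1 hi with rfl | hi
          · simp
          · rw [Function.update_of_ne (ne_of_mem_of_not_mem hi hu)]
            exact h i hi
        · intro i hi
          rw [Function.update_of_ne (ne_of_mem_erase hi)]
    simp only [h2]
  · intro y _ hne
    rw [if_neg]
    rintro ⟨h3, h4⟩
    apply hne
    funext i
    by_cases hi : i = u
    · subst hi
      rw [h3 i (mem_insert_self _ _)]
      simp
    · rw [Function.update_of_ne hi]
      exact (h4 i (mem_erase.2 ⟨hi, mem_univ _⟩)).symm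
  · intro h
    simp at h

lemma mass_resample_insert {u : I} {N S : Finset I} (hu : u ∉ S) (hN : N ⊆ S) (x : I → W) :
    mass (resample P u N) (insert u S) x =
      mass P S x * (mass P (insert u N) x / mass P N x) := by
  rw [← sum_mass_erase S hu x, sum_mul]
  unfold mass resample
  refine sum_congr rfl fun y hy => ?_
  simp only [mem_filter, mem_univ, true_and] at hy
  rw [mass_congr (P := P) (insert u N) (x := y) (x' := x)
    (fun i hi => hy i (insert_subset_insert u hN hi)),
    mass_congr (P := P) N (x := y) (x' := x) (fun i hi => hy i (mem_insert_of_mem (hN hi)))]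
  rfl

/-- Splitting a marginal according to the value of one more coordinate. -/
lemma sum_mass_update {u : I} (N : Finset I) (hu : u ∉ N) (x : I → W) :
    ∑ w, mass P (insert u N) (Function.update x u w) = mass P N x := by
  unfold mass
  simp_rw [sum_filter]
  rw [sum_comm]
  refine sum_congr rfl fun y _ => ?_
  have h1 : ∀ w, (∀ i ∈ insert u N, y i = Function.update x u w i) ↔
      (w = y u ∧ ∀ i ∈ N, y i = x i) := by
    intro w
    constructor
    · intro h
      refine ⟨?_, fun i hi => ?_⟩
      · have := h u (mem_insert_self _ _)
        simpa using this.symm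
      · have := h i (mem_insert_of_mem hi)
        rwa [Function.update_of_ne (ne_of_mem_of_not_mem hi hu)] at this
    · rintro ⟨rfl, h⟩ i hi
      rcases mem_insert.1 hi with rfl | hi
      · simp
      · rw [Function.update_of_ne (ne_of_mem_of_not_mem hi hu)]
        exact h i hi
  simp_rw [h1]
  by_cases h : ∀ i ∈ N, y i = x i
  · rw [if_pos h]
    simp_rw [and_iff_left h]
    simp
  · rw [if_neg h]
    apply sum_eq_zero
    intro w _
    rw [if_neg (fun h' => h h'.2)]

lemma mass_resample_of_notMem [Nonempty W] (hP : ∀ x, 0 ≤ P x) {u : I} {N S : Finset I}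
    (hu : u ∉ S) (huN : u ∉ N) (x : I → W) :
    mass (resample P u N) S x = mass P S x := by
  -- the key computation: sum over `y` with `y = x` on `S` and `y u` fixed
  have hcardW : (0 : ℝ) < Fintype.card W := by exact_mod_cast Fintype.card_pos
  -- reindexing: for functions `f`, `n * ∑_{y =_S x} f y = ∑_{y =_S x} ∑_w f (update y u w)`
  have hre : ∀ f : (I → W) → ℝ,
      ∑ y ∈ univ.filter (fun y : I → W => ∀ i ∈ S, y i = x i), ∑ w, f (Function.update y u w) =
        Fintype.card W * ∑ y ∈ univ.filter (fun y : I → W => ∀ i ∈ S, y i = x i), f y := by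
    intro f
    rw [sum_comm]
    have h1 : ∀ w : W, ∑ y ∈ univ.filter (fun y : I → W => ∀ i ∈ S, y i = x i),
        f (Function.update y u w) =
        Fintype.card W * ∑ y ∈ univ.filter (fun y : I → W => (∀ i ∈ S, y i = x i) ∧ y u = w),
          f y := by
      intro w
      have hmaps : ∀ y ∈ univ.filter (fun y : I → W => ∀ i ∈ S, y i = x i),
          Function.update y u w ∈
            univ.filter (fun y : I → W => (∀ i ∈ S, y i = x i) ∧ y u = w) := by
        intro y hy
        simp only [mem_filter, mem_univ, true_and] at hy ⊢
        refine ⟨fun i hi => ?_, by simp⟩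
        rw [Function.update_of_ne (ne_of_mem_of_not_mem hi hu)]
        exact hy i hi
      rw [← sum_fiberwise_of_maps_to hmaps, mul_sum]
      refine sum_congr rfl fun z hz => ?_
      simp only [mem_filter, mem_univ, true_and] at hz
      have h2 : ∀ y ∈ (univ.filter (fun y : I → W => ∀ i ∈ S, y i = x i)).filter
          (fun y => Function.update y u w = z), f (Function.update y u w) = f z := by
        intro y hy
        rw [(mem_filter.1 hy).2]
      rw [sum_congr rfl h2, sum_const, nsmul_eq_mul]
      congr 1
      -- count: `y = update z u w'`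
      have h3 : (univ.filter (fun y : I → W => ∀ i ∈ S, y i = x i)).filter
          (fun y => Function.update y u w = z) =
          univ.image fun w' : W => Function.update z u w' := by
        ext y
        simp only [mem_filter, mem_univ, true_and, mem_image]
        constructor
        · rintro ⟨_, rfl⟩
          exact ⟨y u, by simp⟩
        · rintro ⟨w', rfl⟩
          refine ⟨fun i hi => ?_, ?_⟩
          · rw [Function.update_of_ne (ne_of_mem_of_not_mem hi hu)]
            exact hz.1 i hi
          · rw [Function.update_idem, ← hz.2, Function.update_eq_self]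
      rw [h3, card_image_of_injective]
      · simp
      · intro w1 w2 h4
        have := congrFun h4 u
        simpa using this
    rw [sum_congr rfl fun w _ => h1 w, ← mul_sum]
    congr 1
    have h5 : ∀ w : W, ∑ y ∈ univ.filter (fun y : I → W => (∀ i ∈ S, y i = x i) ∧ y u = w),
        f y = ∑ y ∈ univ.filter (fun y : I → W => ∀ i ∈ S, y i = x i),
          if y u = w then f y else 0 := by
      intro w
      rw [← sum_filter, filter_filter]
    rw [sum_congr rfl fun w _ => h5 w, sum_comm]
    refine sum_congr rfl fun y _ => ?_
    simp
  have hkey : ∀ y : I → W, ∑ w, resample P u N (Function.update y u w) =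
      mass P (univ.erase u) y := by
    intro y
    unfold resample
    have h1 : ∀ w, mass P (univ.erase u) (Function.update y u w) = mass P (univ.erase u) y := by
      intro w
      apply mass_congr
      intro i hi
      rw [Function.update_of_ne (ne_of_mem_erase hi)]
    have h2 : ∀ w, mass P N (Function.update y u w) = mass P N y := by
      intro w
      apply mass_congr
      intro i hi
      rw [Function.update_of_ne (ne_of_mem_of_not_mem hi huN)]
    simp_rw [h1, h2]
    rw [← mul_sum, ← sum_div, sum_mass_update N huN]
    by_cases h3 : mass P N y = 0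
    · have h4 : mass P (univ.erase u) y = 0 := by
        apply le_antisymm _ (mass_nonneg hP _ _)
        rw [← h3]
        apply mass_anti hP
        intro i hi
        exact mem_erase.2 ⟨fun h' => huN (h' ▸ hi), mem_univ _⟩
      rw [h4, zero_mul]
    · rw [div_self h3, mul_one]
  -- combine
  have h6 := hre (resample P u N)
  rw [sum_congr rfl fun y _ => hkey y] at h6
  -- `∑_{y =_S x} mass P (erase u) y = n * mass P S x`
  have h7 : ∑ y ∈ univ.filter (fun y : I → W => ∀ i ∈ S, y i = x i),
      mass P (univ.erase u) y = Fintype.card W * mass P S x := by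
    have h8 : ∀ w : W, ∑ y ∈ univ.filter
        (fun y : I → W => ∀ i ∈ insert u S, y i = Function.update x u w i),
        mass P (univ.erase u) y = mass P S x := by
      intro w
      rw [sum_mass_erase S hu]
      apply mass_congr
      intro i hi
      rw [Function.update_of_ne (ne_of_mem_of_not_mem hi hu)]
    have h9 : ∑ w : W, ∑ y ∈ univ.filter
        (fun y : I → W => ∀ i ∈ insert u S, y i = Function.update x u w i),
        mass P (univ.erase u) y = ∑ y ∈ univ.filter (fun y : I → W => ∀ i ∈ S, y i = x i),
          mass P (univ.erase u) y := by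
      have h10 : ∀ w : W, ∑ y ∈ univ.filter
          (fun y : I → W => ∀ i ∈ insert u S, y i = Function.update x u w i),
          mass P (univ.erase u) y = ∑ y ∈ univ.filter (fun y : I → W => ∀ i ∈ S, y i = x i),
            if y u = w then mass P (univ.erase u) y else 0 := by
        intro w
        rw [← sum_filter, filter_filter]
        refine sum_congr ?_ fun _ _ => rfl
        ext y
        simp only [mem_filter, mem_univ, true_and]
        constructor
        · intro h
          refine ⟨fun i hi => ?_, ?_⟩
          · have := h i (mem_insert_of_mem hi)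
            rwa [Function.update_of_ne (ne_of_mem_of_not_mem hi hu)] at this
          · simpa using h u (mem_insert_self _ _)
        · rintro ⟨h, rfl⟩ i hi
          rcases mem_insert.1 hi with rfl | hi
          · simp
          · rw [Function.update_of_ne (ne_of_mem_of_not_mem hi hu)]
            exact h i hi
      rw [sum_congr rfl fun w _ => h10 w, sum_comm]
      refine sum_congr rfl fun y _ => ?_
      simp
    rw [← h9, sum_congr rfl fun w _ => h8 w]
    simp
  rw [h7] at h6
  exact (mul_left_cancel₀ hcardW.ne' h6).symm

lemma resample_prob [Nonempty W] (hP : IsProb P) {u : I} {N : Finset I} (huN : u ∉ N) :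
    IsProb (resample P u N) := by
  constructor
  · intro x
    unfold resample
    exact mul_nonneg (mass_nonneg hP.nonneg _ _)
      (div_nonneg (mass_nonneg hP.nonneg _ _) (mass_nonneg hP.nonneg _ _))
  · by_cases hemp : Nonempty (I → W)
    · obtain ⟨x⟩ := hemp
      have := mass_resample_of_notMem (P := P) hP.nonneg (u := u) (N := N) (S := ∅)
        (notMem_empty u) huN x
      rw [mass_empty hP] at this
      unfold mass at this
      simpa using this
    · exfalso
      exact hemp ⟨fun _ => Classical.arbitrary W⟩

lemma defi_resample_of_notMem [Nonempty W] (hP : IsProb P) {u : I} {N S : Finset I}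
    (hu : u ∉ S) (huN : u ∉ N) : defi (resample P u N) S = defi P S := by
  have h1 : ∀ x, mass (resample P u N) S x = mass P S x := fun x =>
    mass_resample_of_notMem hP.nonneg hu huN x
  unfold defi
  simp_rw [h1]
  apply expect_congr S h1
  intro x x' h
  rw [mass_congr S h]

lemma defi_resample_insert [Nonempty W] (hP : IsProb P) {u : I} {N S : Finset I}
    (hu : u ∉ S) (hN : N ⊆ S) :
    defi (resample P u N) (insert u S) = defi P S + defi P (insert u N) - defi P N := by
  have hn : (0 : ℝ) < Fintype.card W := by exact_mod_cast Fintype.card_pos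
  set n : ℝ := (Fintype.card W : ℝ) with hndef
  have huN : u ∉ N := fun h => hu (hN h)
  have hS : ∀ x, mass (resample P u N) S x = mass P S x := fun x =>
    mass_resample_of_notMem hP.nonneg hu huN x
  have hNm : ∀ x, mass (resample P u N) N x = mass P N x := fun x =>
    mass_resample_of_notMem hP.nonneg huN huN x
  have hins : ∀ x, mass (resample P u N) (insert u N) x = mass P (insert u N) x := by
    intro x
    rw [mass_resample_insert huN (subset_refl N)]
    by_cases h0 : mass P N x = 0
    · have h1 : mass P (insert u N) x = 0 := by
        apply le_antisymm _ (mass_nonneg hP.nonneg _ _)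
        rw [← h0]
        exact mass_anti hP.nonneg (subset_insert u N) x
      rw [h1]; simp
    · field_simp
  have hR := resample_prob hP huN (P := P) (u := u) (N := N)
  -- the three expectations
  have e1 : ∑ x, resample P u N x * Real.log (n ^ S.card * mass P S x) = defi P S := by
    unfold defi
    apply expect_congr S hS
    intro x x' h
    rw [mass_congr S h]
  have e2 : ∑ x, resample P u N x * Real.log (n ^ N.card * mass P N x) = defi P N := by
    unfold defi
    apply expect_congr N hNm
    intro x x' h
    rw [mass_congr N h]
  have e3 : ∑ x, resample P u N x * Real.log (n ^ (insert u N).card * mass P (insert u N) x) =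
      defi P (insert u N) := by
    unfold defi
    apply expect_congr (insert u N) hins
    intro x x' h
    rw [mass_congr (insert u N) h]
  rw [← e1, ← e2, ← e3, ← sum_add_distrib, ← sum_sub_distrib]
  unfold defi
  refine sum_congr rfl fun x _ => ?_
  rcases eq_or_lt_of_le (hR.nonneg x) with h0 | h0
  · rw [← h0]; simp
  · have hSpos : 0 < mass P S x := by
      rw [← hS]; exact lt_of_lt_of_le h0 (le_mass hR.nonneg S x)
    have hNpos : 0 < mass P N x := by
      rw [← hNm]; exact lt_of_lt_of_le h0 (le_mass hR.nonneg N x)
    have hIpos : 0 < mass P (insert u N) x := by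
      rw [← hins]; exact lt_of_lt_of_le h0 (le_mass hR.nonneg _ x)
    rw [mass_resample_insert hu hN, ← mul_add, ← mul_sub]
    congr 1
    rw [← Real.log_mul (by positivity) (by positivity),
      ← Real.log_div (by positivity) (by positivity)]
    congr 1
    rw [card_insert_of_notMem hu, card_insert_of_notMem huN, ← hndef]
    field_simp
    ring

/-- Positivity of the resampled distribution. -/
lemma resample_support {u : I} {N : Finset I} {x : I → W}
    (h : resample P u N x ≠ 0) :
    (∃ y, P y ≠ 0 ∧ ∀ i, i ≠ u → y i = x i) ∧ ∃ z, P z ≠ 0 ∧ ∀ i ∈ insert u N, z i = x i := by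
  unfold resample at h
  have h1 : mass P (univ.erase u) x ≠ 0 := fun h' => h (by rw [h', zero_mul])
  have h2 : mass P (insert u N) x ≠ 0 := fun h' => h (by rw [h', zero_div, mul_zero])
  constructor
  · obtain ⟨y, hy, hy0⟩ := exists_ne_zero_of_sum_ne_zero h1
    simp only [mem_filter, mem_univ, true_and] at hy
    exact ⟨y, hy0, fun i hi => hy i (mem_erase.2 ⟨hi, mem_univ _⟩)⟩
  · obtain ⟨z, hz, hz0⟩ := exists_ne_zero_of_sum_ne_zero h2
    simp only [mem_filter, mem_univ, true_and] at hz
    exact ⟨z, hz0, hz⟩

/-! ### The final counting bound -/

/-- Restriction of a function to a finset of coordinates. -/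
def res (S : Finset I) (x : I → W) : S → W := fun i => x i

/-- The number of values of the `S`-marginal in the support is at least `n ^ |S| exp(-D(S))`. -/
lemma support_bound [Nonempty W] (hP : IsProb P) (S : Finset I) (A : Finset (S → W))
    (hA : ∀ x, P x ≠ 0 → res S x ∈ A) :
    (Fintype.card W : ℝ) ^ S.card * Real.exp (-defi P S) ≤ A.card := by
  have hn : (0 : ℝ) < Fintype.card W := by exact_mod_cast Fintype.card_pos
  set n : ℝ := (Fintype.card W : ℝ) with hndef
  have hApos : 0 < A.card := by
    obtain ⟨x, hx⟩ : ∃ x, P x ≠ 0 := by
      by_contra h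
      push Not at h
      have := hP.sum_one
      rw [sum_eq_zero fun x _ => h x] at this
      exact zero_ne_one this
    exact card_pos.2 ⟨_, hA x hx⟩
  have hAposR : (0 : ℝ) < A.card := by exact_mod_cast hApos
  -- the auxiliary function
  let φ : (I → W) → ℝ := fun x => if res S x ∈ A then 1 / (mass P S x * A.card) else 0
  have hφ : ∀ x x' : I → W, (∀ i ∈ S, x i = x' i) → φ x = φ x' := by
    intro x x' h
    simp only [φ]
    have : res S x = res S x' := by
      funext i
      exact h i.1 i.2
    rw [this, mass_congr S h]
  have h1 : ∑ x, P x * φ x ≤ 1 := by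
    have h2 := sum_mass_mul (P := P) S φ hφ
    have h3 : ∑ x, mass P S x * φ x ≤ n ^ (Fintype.card I - S.card) := by
      have h4 : ∀ x : I → W, mass P S x * φ x ≤ if res S x ∈ A then 1 / (A.card : ℝ) else 0 := by
        intro x
        simp only [φ]
        split_ifs with h
        · by_cases h0 : mass P S x = 0
          · rw [h0]; simp
          · apply le_of_eq
            field_simp
        · simp
      refine (sum_le_sum fun x _ => h4 x).trans ?_
      rw [← sum_filter, sum_const, nsmul_eq_mul]
      have h5 : (univ.filter fun x : I → W => res S x ∈ A).card =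
          A.card * Fintype.card W ^ (Fintype.card I - S.card) := by
        have hmaps : ∀ x ∈ univ.filter (fun x : I → W => res S x ∈ A), res S x ∈ A := by
          intro x hx
          simpa using hx
        rw [card_eq_sum_card_fiberwise hmaps]
        have h6 : ∀ a ∈ A, ((univ.filter fun x : I → W => res S x ∈ A).filter
            fun x => res S x = a).card = Fintype.card W ^ (Fintype.card I - S.card) := by
          intro a ha
          obtain ⟨w0⟩ := (inferInstance : Nonempty W)
          rw [← card_agree S (fun i => if h : i ∈ S then a ⟨i, h⟩ else w0)]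
          congr 1
          ext x
          simp only [mem_filter, mem_univ, true_and]
          constructor
          · rintro ⟨_, h⟩ i hi
            rw [dif_pos hi, ← h]
            rfl
          · intro h
            have : res S x = a := by
              funext i
              have := h i.1 i.2
              rw [dif_pos i.2] at this
              exact this
            exact ⟨this ▸ ha, this⟩
        rw [sum_congr rfl h6, sum_const, smul_eq_mul]
      rw [h5]
      push_cast
      rw [← hndef]
      apply le_of_eq
      field_simp
    rw [h2, ← hndef] at h3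
    have h6 : (0 : ℝ) < n ^ (Fintype.card I - S.card) := by positivity
    have h7 : n ^ (Fintype.card I - S.card) * ∑ x, P x * φ x ≤
        n ^ (Fintype.card I - S.card) * 1 := by rwa [mul_one]
    exact le_of_mul_le_mul_left h7 h6
  -- Jensen
  have h8 : Real.log (n ^ S.card / A.card) - defi P S ≤ ∑ x, P x * φ x - 1 := by
    have h9 : Real.log (n ^ S.card / A.card) = ∑ x, P x * Real.log (n ^ S.card / A.card) := by
      rw [← sum_mul, hP.sum_one, one_mul]
    rw [h9, ← hP.sum_one]
    unfold defi
    rw [← sum_sub_distrib, ← sum_sub_distrib]
    apply sum_le_sum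
    intro x _
    rcases eq_or_lt_of_le (hP.nonneg x) with h0 | h0
    · rw [← h0]; simp
    · have hS : 0 < mass P S x := lt_of_lt_of_le h0 (le_mass hP.nonneg S x)
      have hφx : φ x = 1 / (mass P S x * A.card) := by
        simp only [φ]
        rw [if_pos (hA x h0.ne')]
      have hφpos : 0 < φ x := by rw [hφx]; positivity
      have h10 : Real.log (n ^ S.card / A.card) - Real.log (n ^ S.card * mass P S x) =
          Real.log (φ x) := by
        rw [← Real.log_div (by positivity) (by positivity), hφx]
        congr 1
        field_simp
      rw [← mul_sub, h10]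
      have h11 := Real.log_le_sub_one_of_pos hφpos
      nlinarith
  have h12 : Real.log (n ^ S.card / A.card) ≤ defi P S := by linarith
  have h13 : n ^ S.card / A.card ≤ Real.exp (defi P S) := by
    rw [← Real.exp_log (show 0 < n ^ S.card / A.card by positivity)]
    exact Real.exp_le_exp.2 h12
  rw [div_le_iff₀ hAposR] at h13
  rw [Real.exp_neg]
  have h14 : 0 < Real.exp (defi P S) := Real.exp_pos _
  rw [← div_eq_mul_inv, div_le_iff₀ h14]
  linarith

end Q112.Sid
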