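import Mathlib

/-!
# Homomorphism densities of `r`-graphs and Sidorenko exponents: definitions
-/

namespace Q112.Sid

open Finset

/-- An `r`-graph: a finite vertex set (taken to be `Fin n`) and a set of `r`-element edges. -/
structure RGraph (r : ℕ) where
  /-- the number of vertices -/
  n : ℕ
  /-- the edges -/
  edges : Finset (Finset (Fin n))
  uniform : ∀ e ∈ edges, e.card = r

variable {r : ℕ}

/-- The homomorphisms from `F` to `H`: maps sending every edge of `F` onto an edge of `H`. -/
def homs (F H : RGraph r) : Finset (Fin F.n → Fin H.n) :=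
  univ.filter fun φ => ∀ e ∈ F.edges, e.image φ ∈ H.edges

/-- The homomorphism density `t_F(H) = hom(F, H) / v(H) ^ v(F)`. -/
noncomputable def density (F H : RGraph r) : ℝ := ((homs F H).card : ℝ) / (H.n : ℝ) ^ F.n

/-- The `r`-graph `K_r^{(r)}` with `r` vertices and one edge. -/
def oneEdge (r : ℕ) : RGraph r where
  n := r
  edges := {univ}
  uniform := by simp

/-- `F` is `r`-partite: the vertex set can be split into `r` parts (the fibres of `c`) such that
every edge meets each part in exactly one vertex. -/
def IsPartite (F : RGraph r) : Prop :=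
  ∃ c : Fin F.n → Fin r, ∀ e ∈ F.edges, ∀ i, ∃! v, v ∈ e ∧ c v = i

/-- The degree of a vertex. -/
def degree (F : RGraph r) (v : Fin F.n) : ℕ := (F.edges.filter fun e => v ∈ e).card

/-- The Sidorenko exponent (a supremum in the extended reals):
`s(F) = sup {s ≥ 0 : there is an r-graph H with t_F(H) = t_{K_r}(H) ^ s > 0}`. -/
noncomputable def sidExp (F : RGraph r) : EReal :=
  sSup {x : EReal | ∃ s : ℝ, 0 ≤ s ∧ x = s ∧
    ∃ H : RGraph r, density F H = density (oneEdge r) H ^ s ∧ 0 < density F H}

end Q112.Sid
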