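import Pool.Agent.Q112.Sid.Defs
import Pool.Agent.Q112.Sid.Core

/-!
# Linear bound on Sidorenko exponents of bounded degree `r`-partite `r`-graphs
-/

namespace Q112.Sid

open Finset

variable {r : ℕ}

section construction

variable (F H : RGraph r) (c : Fin F.n → Fin r)

/-- Index type: the vertices of `F` and `r` glued vertices. -/
abbrev Idx : Type := Fin F.n ⊕ Fin r

/-- The tuples forming an edge of `H`. -/
def tuples (H : RGraph r) : Finset (Fin r → Fin H.n) := univ.filter fun g => univ.image g ∈ H.edges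

/-- The initial distribution. -/
noncomputable def P0 : (Idx F → Fin H.n) → ℝ := fun x =>
  if (∀ u, x (Sum.inl u) = x (Sum.inr (c u))) ∧ (fun i => x (Sum.inr i)) ∈ tuples H then
    1 / (tuples H).card else 0

/-- The invariant of the construction. -/
structure Inv (κ : Idx F → ℝ) (L : ℝ) (T : Finset (Fin F.n)) (P : (Idx F → Fin H.n) → ℝ) :
    Prop where
  prob : IsProb P
  glue : ∀ x, P x ≠ 0 → ∀ u, u ∉ T → x (Sum.inl u) = x (Sum.inr (c u))
  hom : ∀ x, P x ≠ 0 → ∀ e ∈ F.edges, e.image (fun u => x (Sum.inl u)) ∈ H.edges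
  bound : ∀ S : Finset (Idx F), (∀ u, Sum.inl u ∈ S → u ∈ T) → defi P S ≤ L * ∑ s ∈ S, κ s

/-- Neighbourhood used for resampling `u`. -/
def nbh (u : Fin F.n) : Finset (Idx F) :=
  (univ.filter fun w => c w < c u ∧ ∃ e ∈ F.edges, u ∈ e ∧ w ∈ e).disjSum
    (univ.filter fun i => c u < i)

variable {F H c}

lemma mem_nbh_inl {u w : Fin F.n} : (Sum.inl w : Idx F) ∈ nbh F c u ↔
    c w < c u ∧ ∃ e ∈ F.edges, u ∈ e ∧ w ∈ e := by
  simp [nbh]

lemma mem_nbh_inr {u : Fin F.n} {i : Fin r} : (Sum.inr i : Idx F) ∈ nbh F c u ↔ c u < i := by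
  simp [nbh]

lemma inv_zero (hn : 0 < H.n) (hM : 0 < (tuples H).card)
    (hc : ∀ e ∈ F.edges, ∀ i, ∃! v, v ∈ e ∧ c v = i) (κ : Idx F → ℝ)
    (hκ : ∀ i, 1 ≤ κ (Sum.inr i)) :
    Inv F H c κ (Real.log ((H.n : ℝ) ^ r / (tuples H).card)) ∅ (P0 F H c) := by
  have hne : Nonempty (Fin H.n) := ⟨⟨0, hn⟩⟩
  have hMR : (0 : ℝ) < (tuples H).card := by exact_mod_cast hM
  have hnR : (0 : ℝ) < H.n := by exact_mod_cast hn
  have hsupp : ∀ x, P0 F H c x ≠ 0 → (∀ u, x (Sum.inl u) = x (Sum.inr (c u))) ∧
      (fun i => x (Sum.inr i)) ∈ tuples H := by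
    intro x hx
    unfold P0 at hx
    by_contra h
    rw [if_neg h] at hx
    exact hx rfl
  have hprob : IsProb (P0 F H c) := by
    constructor
    · intro x
      unfold P0
      split_ifs <;> positivity
    · unfold P0
      rw [← sum_filter, sum_const, nsmul_eq_mul]
      have h1 : (univ.filter fun x : Idx F → Fin H.n =>
          (∀ u, x (Sum.inl u) = x (Sum.inr (c u))) ∧ (fun i => x (Sum.inr i)) ∈ tuples H).card =
          (tuples H).card := by
        symm
        refine card_bij (fun g _ => Sum.elim (fun u => g (c u)) g) ?_ ?_ ?_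
        · intro g hg
          simp only [mem_filter, mem_univ, true_and, Sum.elim_inl, Sum.elim_inr]
          exact ⟨fun _ => trivial, hg⟩
        · intro g _ g' _ h
          funext i
          have := congrFun h (Sum.inr i)
          simpa using this
        · intro x hx
          simp only [mem_filter, mem_univ, true_and] at hx
          refine ⟨fun i => x (Sum.inr i), hx.2, ?_⟩
          funext j
          rcases j with u | i
          · simp [hx.1 u]
          · simp
      rw [h1]
      field_simp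
  refine ⟨hprob, fun x hx u _ => (hsupp x hx).1 u, ?_, ?_⟩
  · intro x hx e he
    obtain ⟨h1, h2⟩ := hsupp x hx
    have h3 : e.image (fun u => x (Sum.inl u)) = univ.image fun i => x (Sum.inr i) := by
      ext w
      simp only [mem_image, mem_univ, true_and]
      constructor
      · rintro ⟨u, _, rfl⟩
        exact ⟨c u, (h1 u).symm⟩
      · rintro ⟨i, rfl⟩
        obtain ⟨v, ⟨hv, hvi⟩, _⟩ := hc e he i
        exact ⟨v, hv, by rw [h1, hvi]⟩
    rw [h3]
    simpa [tuples] using h2
  · intro S hS
    -- all glued vertices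
    set G : Finset (Idx F) := (univ : Finset (Fin r)).map Function.Embedding.inr with hG
    have hSG : S ⊆ G := by
      intro s hs
      rcases s with u | i
      · exact absurd (hS u hs) (notMem_empty _)
      · simp [hG]
    have hL : defi (P0 F H c) G = Real.log ((H.n : ℝ) ^ r / (tuples H).card) := by
      unfold defi
      have hmass : ∀ x, P0 F H c x ≠ 0 → mass (P0 F H c) G x = 1 / (tuples H).card := by
        intro x hx
        unfold mass
        rw [sum_eq_single x]
        · unfold P0
          rw [if_pos (hsupp x hx)]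
        · intro y hy hne'
          by_contra h0
          apply hne'
          simp only [mem_filter, mem_univ, true_and] at hy
          funext j
          rcases j with u | i
          · rw [(hsupp y h0).1 u, (hsupp x hx).1 u]
            exact hy _ (by simp [hG])
          · exact hy _ (by simp [hG])
        · intro h
          simp at h
      have h1 : ∀ x, P0 F H c x * Real.log ((Fintype.card (Fin H.n) : ℝ) ^ G.card *
          mass (P0 F H c) G x) = P0 F H c x * Real.log ((H.n : ℝ) ^ r / (tuples H).card) := by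
        intro x
        by_cases hx : P0 F H c x = 0
        · rw [hx]; simp
        · rw [hmass x hx, Fintype.card_fin, hG, card_map, card_univ, Fintype.card_fin,
            mul_one_div]
      rw [sum_congr rfl fun x _ => h1 x, ← sum_mul, hprob.sum_one, one_mul]
    rcases S.eq_empty_or_nonempty with h0 | h0
    · subst h0
      rw [defi_empty hprob]
      simp
    · have h1 : defi (P0 F H c) S ≤ Real.log ((H.n : ℝ) ^ r / (tuples H).card) := by
        rw [← hL]
        exact defi_mono hprob hSG
      have h2 : 0 ≤ Real.log ((H.n : ℝ) ^ r / (tuples H).card) := by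
        rw [← hL]
        exact defi_nonneg hprob _
      have h3 : (1 : ℝ) ≤ ∑ s ∈ S, κ s := by
        calc (1 : ℝ) ≤ S.card := by exact_mod_cast card_pos.2 h0
          _ = ∑ s ∈ S, (1 : ℝ) := by simp
          _ ≤ ∑ s ∈ S, κ s := by
            apply sum_le_sum
            intro s hs
            rcases s with u | i
            · exact absurd (hS u hs) (notMem_empty _)
            · exact hκ i
      nlinarith

lemma inv_step (hn : 0 < H.n) (hc : ∀ e ∈ F.edges, ∀ i, ∃! v, v ∈ e ∧ c v = i)
    {κ : Idx F → ℝ} (hκ0 : ∀ s, 0 ≤ κ s) (hκ1 : ∀ i, κ (Sum.inr i) = 1)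
    (hκ : ∀ u, 2 * ∑ s ∈ nbh F c u, κ s + 1 ≤ κ (Sum.inl u)) {L : ℝ} (hL : 0 ≤ L)
    {T : Finset (Fin F.n)} {u : Fin F.n} (hu : u ∉ T)
    (hinit : ∀ w, c w < c u → w ∈ T) (hmax : ∀ w ∈ T, c w ≤ c u)
    {P : (Idx F → Fin H.n) → ℝ} (hP : Inv F H c κ L T P) :
    ∃ P' : (Idx F → Fin H.n) → ℝ, Inv F H c κ L (insert u T) P' := by
  have hne : Nonempty (Fin H.n) := ⟨⟨0, hn⟩⟩
  set N := nbh F c u with hN
  have huN : (Sum.inl u : Idx F) ∉ N := by
    rw [hN, mem_nbh_inl]
    exact fun h => lt_irrefl _ h.1
  have hgN : (Sum.inr (c u) : Idx F) ∉ N := by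
    rw [hN, mem_nbh_inr]
    exact lt_irrefl _
  refine ⟨resample P (Sum.inl u) N, resample_prob hP.prob huN, ?_, ?_, ?_⟩
  · intro x hx w hw
    rw [mem_insert, not_or] at hw
    obtain ⟨⟨y, hy, hyx⟩, _⟩ := resample_support hx
    rw [← hyx (Sum.inl w) (fun h => hw.1 (Sum.inl_injective h)), ← hyx (Sum.inr (c w)) (by simp)]
    exact hP.glue y hy w hw.2
  · intro x hx e he
    obtain ⟨⟨y, hy, hyx⟩, ⟨z, hz, hzx⟩⟩ := resample_support hx
    by_cases hue : u ∈ e
    · have h1 : e.image (fun w => x (Sum.inl w)) = e.image fun w => z (Sum.inl w) := by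
        apply image_congr
        intro w hw
        rw [mem_coe] at hw
        simp only
        symm
        by_cases hwu : w = u
        · subst hwu
          exact hzx _ (mem_insert_self _ _)
        have hcne : c w ≠ c u := by
          intro h
          obtain ⟨v, _, hv⟩ := hc e he (c u)
          exact hwu ((hv w ⟨hw, h⟩).trans (hv u ⟨hue, rfl⟩).symm)
        rcases lt_or_gt_of_ne hcne with h | h
        · exact hzx _ (mem_insert_of_mem (mem_nbh_inl.2 ⟨h, e, he, hue, hw⟩))
        · have hwT : w ∉ T := fun h' => absurd (hmax w h') (not_le.2 h)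
          rw [hP.glue z hz w hwT, hzx _ (mem_insert_of_mem (mem_nbh_inr.2 h))]
          rw [← hyx (Sum.inl w) (fun h' => hwu (Sum.inl_injective h')),
            ← hyx (Sum.inr (c w)) (by simp)]
          exact (hP.glue y hy w hwT).symm
      rw [h1]
      exact hP.hom z hz e he
    · have h1 : e.image (fun w => x (Sum.inl w)) = e.image fun w => y (Sum.inl w) := by
        apply image_congr
        intro w hw
        rw [mem_coe] at hw
        simp only
        rw [hyx (Sum.inl w)]
        intro h
        exact hue (Sum.inl_injective h ▸ hw)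
      rw [h1]
      exact hP.hom y hy e he
  · intro S hS
    have hNT : ∀ w, (Sum.inl w : Idx F) ∈ N → w ∈ T := by
      intro w hw
      rw [hN, mem_nbh_inl] at hw
      exact hinit w hw.1
    by_cases huS : (Sum.inl u : Idx F) ∈ S
    · set S' := S.erase (Sum.inl u) with hS'
      have hSins : S = insert (Sum.inl u) S' := (insert_erase huS).symm
      have hS'T : ∀ w, (Sum.inl w : Idx F) ∈ S' → w ∈ T := by
        intro w hw
        rw [hS', mem_erase] at hw
        rcases mem_insert.1 (hS w hw.2) with h | h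
        · exact absurd (congrArg Sum.inl h) hw.1
        · exact h
      have huSN : (Sum.inl u : Idx F) ∉ S' ∪ N := by
        rw [mem_union, not_or]
        exact ⟨by simp [hS'], huN⟩
      have hPr := resample_prob hP.prob huN
      have h1 : defi (resample P (Sum.inl u) N) S ≤
          defi (resample P (Sum.inl u) N) (insert (Sum.inl u) (S' ∪ N)) := by
        apply defi_mono hPr
        rw [hSins]
        exact insert_subset_insert _ subset_union_left
      rw [defi_resample_insert hP.prob huSN subset_union_right] at h1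
      have h2 : defi P (S' ∪ N) ≤ L * ∑ s ∈ S' ∪ N, κ s := by
        apply hP.bound
        intro w hw
        rcases mem_union.1 hw with h | h
        · exact hS'T w h
        · exact hNT w h
      have h3 : defi P (insert (Sum.inl u) N) ≤ L * (1 + ∑ s ∈ N, κ s) := by
        rw [defi_swap (fun x hx => hP.glue x hx u hu) huN hgN]
        have := hP.bound (insert (Sum.inr (c u)) N) (by
          intro w hw
          rcases mem_insert.1 hw with h | h
          · exact absurd h (by simp)
          · exact hNT w h)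
        rwa [sum_insert hgN, hκ1] at this
      have h4 : 0 ≤ defi P N := defi_nonneg hP.prob N
      have h5 : ∑ s ∈ S' ∪ N, κ s ≤ ∑ s ∈ S', κ s + ∑ s ∈ N, κ s := by
        rw [← sum_union_inter]
        exact le_add_of_nonneg_right (sum_nonneg fun s _ => hκ0 s)
      have h6 : ∑ s ∈ S, κ s = κ (Sum.inl u) + ∑ s ∈ S', κ s := by
        rw [hSins, sum_insert (by simp [hS'])]
      rw [h6]
      have h7 := hκ u
      rw [← hN] at h7
      calc defi (resample P (Sum.inl u) N) S
          ≤ L * ∑ s ∈ S' ∪ N, κ s + L * (1 + ∑ s ∈ N, κ s) := by linarith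
        _ ≤ L * (∑ s ∈ S', κ s + ∑ s ∈ N, κ s) + L * (1 + ∑ s ∈ N, κ s) := by gcongr
        _ = L * (2 * ∑ s ∈ N, κ s + 1 + ∑ s ∈ S', κ s) := by ring
        _ ≤ L * (κ (Sum.inl u) + ∑ s ∈ S', κ s) := by gcongr
    · rw [defi_resample_of_notMem hP.prob huS huN]
      apply hP.bound
      intro w hw
      rcases mem_insert.1 (hS w hw) with h | h
      · subst h
        exact absurd hw huS
      · exact h

lemma inv_all (hn : 0 < H.n) (hM : 0 < (tuples H).card)
    (hc : ∀ e ∈ F.edges, ∀ i, ∃! v, v ∈ e ∧ c v = i)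
    {κ : Idx F → ℝ} (hκ0 : ∀ s, 0 ≤ κ s) (hκ1 : ∀ i, κ (Sum.inr i) = 1)
    (hκ : ∀ u, 2 * ∑ s ∈ nbh F c u, κ s + 1 ≤ κ (Sum.inl u)) :
    ∃ P : (Idx F → Fin H.n) → ℝ,
      Inv F H c κ (Real.log ((H.n : ℝ) ^ r / (tuples H).card)) univ P := by
  have hL : 0 ≤ Real.log ((H.n : ℝ) ^ r / (tuples H).card) := by
    apply Real.log_nonneg
    rw [le_div_iff₀ (by exact_mod_cast hM), one_mul]
    have : (tuples H).card ≤ H.n ^ r := by
      calc (tuples H).card ≤ (univ : Finset (Fin r → Fin H.n)).card := card_le_univ _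
        _ = H.n ^ r := by simp
    exact_mod_cast this
  have main : ∀ (k : ℕ) (T : Finset (Fin F.n)), T.card = k →
      (∀ u ∈ T, ∀ w, c w < c u → w ∈ T) → ∃ P : (Idx F → Fin H.n) → ℝ,
        Inv F H c κ (Real.log ((H.n : ℝ) ^ r / (tuples H).card)) T P := by
    intro k
    induction k with
    | zero =>
      intro T hT _
      rw [card_eq_zero] at hT
      subst hT
      exact ⟨_, inv_zero hn hM hc κ (fun i => (hκ1 i).ge)⟩
    | succ k ih =>
      intro T hT hinit
      have hne : T.Nonempty := card_pos.1 (by omega)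
      obtain ⟨u, huT, humax⟩ := T.exists_max_image c hne
      obtain ⟨P, hP⟩ := ih (T.erase u) (by rw [card_erase_of_mem huT, hT]; omega) (by
        intro v hv w hw
        rw [mem_erase] at hv ⊢
        refine ⟨?_, hinit v hv.2 w hw⟩
        rintro rfl
        exact absurd (humax v hv.2) (not_le.2 hw))
      obtain ⟨P', hP'⟩ := inv_step hn hc hκ0 hκ1 hκ hL (notMem_erase u T) (by
        intro w hw
        rw [mem_erase]
        exact ⟨fun h => by rw [h] at hw; exact lt_irrefl _ hw, hinit u huT w hw⟩) (by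
        intro w hw
        exact humax w (mem_of_mem_erase hw)) hP
      rw [insert_erase huT] at hP'
      exact ⟨P', hP'⟩
  exact main _ univ rfl (fun _ _ _ _ => mem_univ _)

/-- The lower bound on the density. -/
lemma density_lower (hn : 0 < H.n) (hM : 0 < (tuples H).card)
    (hc : ∀ e ∈ F.edges, ∀ i, ∃! v, v ∈ e ∧ c v = i)
    {κ : Idx F → ℝ} (hκ0 : ∀ s, 0 ≤ κ s) (hκ1 : ∀ i, κ (Sum.inr i) = 1)
    (hκ : ∀ u, 2 * ∑ s ∈ nbh F c u, κ s + 1 ≤ κ (Sum.inl u)) :
    (((tuples H).card : ℝ) / (H.n : ℝ) ^ r) ^ (∑ u ∈ F.edges.biUnion id, κ (Sum.inl u)) ≤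
      density F H := by
  have hne : Nonempty (Fin H.n) := ⟨⟨0, hn⟩⟩
  have hMR : (0 : ℝ) < (tuples H).card := by exact_mod_cast hM
  have hnR : (0 : ℝ) < H.n := by exact_mod_cast hn
  obtain ⟨P, hP⟩ := inv_all (F := F) hn hM hc hκ0 hκ1 hκ
  set U' : Finset (Fin F.n) := F.edges.biUnion id with hU'
  set S : Finset (Idx F) := U'.map Function.Embedding.inl with hS
  let w0 : Fin H.n := ⟨0, hn⟩
  let A : Finset (S → Fin H.n) := (homs F H).image fun φ => res S (Sum.elim φ fun _ => w0)
  have hA : ∀ x, P x ≠ 0 → res S x ∈ A := by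
    intro x hx
    rw [mem_image]
    refine ⟨fun u => x (Sum.inl u), ?_, ?_⟩
    · simp only [homs, mem_filter, mem_univ, true_and]
      exact hP.hom x hx
    · funext s
      obtain ⟨s, hs⟩ := s
      rw [hS, mem_map] at hs
      obtain ⟨u, _, rfl⟩ := hs
      simp [res]
  have h1 := support_bound hP.prob S A hA
  have h2 := hP.bound S (fun _ _ => mem_univ _)
  have hScard : S.card = U'.card := card_map _
  have hsum : ∑ s ∈ S, κ s = ∑ u ∈ U', κ (Sum.inl u) := by
    rw [hS, sum_map]; rfl
  -- counting homomorphisms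
  have h3 : A.card * H.n ^ (F.n - U'.card) ≤ (homs F H).card := by
    have hmaps : ∀ φ ∈ homs F H, res S (Sum.elim φ fun _ => w0) ∈ A := by
      intro φ hφ
      exact mem_image_of_mem _ hφ
    rw [card_eq_sum_card_fiberwise hmaps, ← smul_eq_mul, ← sum_const]
    apply sum_le_sum
    intro a ha
    obtain ⟨φ0, hφ0, rfl⟩ := mem_image.1 ha
    have h4 := card_agree U' φ0
    rw [Fintype.card_fin, Fintype.card_fin] at h4
    rw [← h4]
    apply card_le_card
    intro φ hφ
    simp only [mem_filter, mem_univ, true_and] at hφ ⊢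
    constructor
    · simp only [homs, mem_filter, mem_univ, true_and] at hφ0 ⊢
      intro e he
      have : e.image φ = e.image φ0 := by
        apply image_congr
        intro v hv
        exact hφ v (mem_biUnion.2 ⟨e, he, hv⟩)
      rw [this]
      exact hφ0 e he
    · funext s
      obtain ⟨s, hs⟩ := s
      rw [hS, mem_map] at hs
      obtain ⟨u, hu, rfl⟩ := hs
      simp [res, hφ u hu]
  have h5 : (A.card : ℝ) * (H.n : ℝ) ^ (F.n - U'.card) ≤ ((homs F H).card : ℝ) := by
    exact_mod_cast h3
  have hUle : U'.card ≤ F.n := by simpa using card_le_univ U'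
  rw [Fintype.card_fin, hScard] at h1
  rw [hsum] at h2
  have h6 : Real.exp (-defi P S) ≤ density F H := by
    unfold density
    rw [le_div_iff₀ (by positivity)]
    calc Real.exp (-defi P S) * (H.n : ℝ) ^ F.n
        = ((H.n : ℝ) ^ U'.card * Real.exp (-defi P S)) * (H.n : ℝ) ^ (F.n - U'.card) := by
          have : (H.n : ℝ) ^ F.n = (H.n : ℝ) ^ U'.card * (H.n : ℝ) ^ (F.n - U'.card) := by
            rw [← pow_add]
            congr 1
            omega
          rw [this]; ring
      _ ≤ (A.card : ℝ) * (H.n : ℝ) ^ (F.n - U'.card) := by gcongr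
      _ ≤ _ := h5
  refine le_trans ?_ h6
  rw [Real.rpow_def_of_pos (by positivity)]
  apply Real.exp_le_exp.2
  have h7 : Real.log (((tuples H).card : ℝ) / (H.n : ℝ) ^ r) =
      - Real.log ((H.n : ℝ) ^ r / (tuples H).card) := by
    rw [← Real.log_inv, inv_div]
  rw [h7]
  linarith

end construction

/-! ### The weights -/

/-- The basic weight. -/
noncomputable def wt (F : RGraph r) (c : Fin F.n → Fin r) (K : ℝ) : Idx F → ℝ :=
  Sum.elim (fun u => K ^ ((c u : ℕ) + 1)) fun _ => 1

lemma nbh_card {F : RGraph r} {c : Fin F.n → Fin r} {Δ : ℕ} (hΔ : 1 ≤ Δ)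
    (hc : ∀ e ∈ F.edges, ∀ i, ∃! v, v ∈ e ∧ c v = i) (hdeg : ∀ v, degree F v ≤ Δ)
    (u : Fin F.n) : (nbh F c u).card ≤ (r - 1) * Δ := by
  unfold nbh
  rw [card_disjSum]
  have h1 : (univ.filter fun w => c w < c u ∧ ∃ e ∈ F.edges, u ∈ e ∧ w ∈ e).card ≤
      Δ * (c u : ℕ) := by
    have hsub : (univ.filter fun w => c w < c u ∧ ∃ e ∈ F.edges, u ∈ e ∧ w ∈ e) ⊆
        (F.edges.filter fun e => u ∈ e).biUnion fun e => e.filter fun w => c w < c u := by
      intro w hw
      simp only [mem_filter, mem_univ, true_and] at hw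
      obtain ⟨hcw, e, he, hue, hwe⟩ := hw
      rw [mem_biUnion]
      exact ⟨e, mem_filter.2 ⟨he, hue⟩, mem_filter.2 ⟨hwe, hcw⟩⟩
    calc _ ≤ _ := card_le_card hsub
      _ ≤ ∑ e ∈ F.edges.filter (fun e => u ∈ e), (e.filter fun w => c w < c u).card :=
        card_biUnion_le
      _ ≤ ∑ e ∈ F.edges.filter (fun e => u ∈ e), (c u : ℕ) := by
        apply sum_le_sum
        intro e he
        rw [mem_filter] at he
        calc (e.filter fun w => c w < c u).card ≤ (Finset.Iio (c u)).card := by
              apply card_le_card_of_injOn c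
              · intro w hw
                rw [mem_coe, mem_filter] at hw
                rw [mem_coe, mem_Iio]
                exact hw.2
              · intro w hw w' hw' h
                rw [mem_coe, mem_filter] at hw hw'
                obtain ⟨v, _, hv⟩ := hc e he.1 (c w)
                exact (hv w ⟨hw.1, rfl⟩).trans (hv w' ⟨hw'.1, h.symm⟩).symm
          _ = (c u : ℕ) := Fin.card_Iio _
      _ = (degree F u) * (c u : ℕ) := by rw [sum_const, smul_eq_mul]; rfl
      _ ≤ Δ * (c u : ℕ) := Nat.mul_le_mul_right _ (hdeg u)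
  have h2 : (univ.filter fun i : Fin r => c u < i).card ≤ Δ * (r - 1 - (c u : ℕ)) := by
    have : (univ.filter fun i : Fin r => c u < i) = Finset.Ioi (c u) := by
      ext i; simp
    rw [this, Fin.card_Ioi]
    exact Nat.le_mul_of_pos_left _ hΔ
  have hcu := (c u).2
  calc _ ≤ Δ * (c u : ℕ) + Δ * (r - 1 - (c u : ℕ)) := Nat.add_le_add h1 h2
    _ = (r - 1) * Δ := by
      rw [← Nat.mul_add, Nat.mul_comm]
      congr 1
      omega

lemma wt_ineq {F : RGraph r} {c : Fin F.n → Fin r} {Δ : ℕ} (hΔ : 1 ≤ Δ)
    (hc : ∀ e ∈ F.edges, ∀ i, ∃! v, v ∈ e ∧ c v = i) (hdeg : ∀ v, degree F v ≤ Δ)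
    (u : Fin F.n) :
    2 * ∑ s ∈ nbh F c u, wt F c ((2 * (r - 1) * Δ + 1 : ℕ) : ℝ) s + 1 ≤
      wt F c ((2 * (r - 1) * Δ + 1 : ℕ) : ℝ) (Sum.inl u) := by
  set K : ℝ := ((2 * (r - 1) * Δ + 1 : ℕ) : ℝ) with hK
  have hK1 : 1 ≤ K := by
    rw [hK]; exact_mod_cast Nat.le_add_left 1 _
  have h1 : ∀ s ∈ nbh F c u, wt F c K s ≤ K ^ (c u : ℕ) := by
    intro s hs
    rcases s with w | i
    · rw [mem_nbh_inl] at hs
      simp only [wt, Sum.elim_inl]
      exact pow_le_pow_right₀ hK1 (by have := hs.1; rw [Fin.lt_def] at this; omega)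
    · simp only [wt, Sum.elim_inr]
      exact one_le_pow₀ hK1
  have h2 : ∑ s ∈ nbh F c u, wt F c K s ≤ ((r - 1) * Δ : ℕ) * K ^ (c u : ℕ) := by
    calc ∑ s ∈ nbh F c u, wt F c K s ≤ ∑ s ∈ nbh F c u, K ^ (c u : ℕ) := sum_le_sum h1
      _ = (nbh F c u).card * K ^ (c u : ℕ) := by rw [sum_const, nsmul_eq_mul]
      _ ≤ ((r - 1) * Δ : ℕ) * K ^ (c u : ℕ) := by
        gcongr
        exact nbh_card hΔ hc hdeg u
  have h3 : (1 : ℝ) ≤ K ^ (c u : ℕ) := one_le_pow₀ hK1
  have h4 : wt F c K (Sum.inl u) = K * K ^ (c u : ℕ) := by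
    simp only [wt, Sum.elim_inl]
    rw [pow_succ]; ring
  rw [h4]
  have h5 : K = 2 * (((r - 1) * Δ : ℕ) : ℝ) + 1 := by
    rw [hK]; push_cast; ring
  calc 2 * ∑ s ∈ nbh F c u, wt F c K s + 1 ≤
      2 * (((r - 1) * Δ : ℕ) * K ^ (c u : ℕ)) + K ^ (c u : ℕ) := by linarith
    _ = (2 * (((r - 1) * Δ : ℕ) : ℝ) + 1) * K ^ (c u : ℕ) := by ring
    _ = K * K ^ (c u : ℕ) := by rw [← h5]

lemma tuples_card (H : RGraph r) :
    ((tuples H).card : ℝ) / (H.n : ℝ) ^ r = density (oneEdge r) H := by
  unfold density tuples homs oneEdge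
  simp

/-- The main theorem. -/
theorem sidExp_le (hr : 2 ≤ r) (F : RGraph r) (hF : IsPartite F) (Δ : ℕ)
    (hdeg : ∀ v, degree F v ≤ Δ) :
    sidExp F ≤ (((r * (2 * (r - 1) * Δ + 1) ^ r * F.edges.card : ℕ) : ℝ) : EReal) := by
  unfold sidExp
  apply sSup_le
  rintro _ ⟨s, hs0, rfl, H, hH, hpos⟩
  apply EReal.coe_le_coe_iff.2
  have hE0 : (0 : ℝ) ≤ ((r * (2 * (r - 1) * Δ + 1) ^ r * F.edges.card : ℕ) : ℝ) := by positivity
  rcases eq_or_lt_of_le (show 0 ≤ density (oneEdge r) H by unfold density; positivity)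
    with hp | hp
  · -- density zero
    rw [← hp] at hH
    by_cases h0 : s = 0
    · rw [h0]; exact hE0
    · rw [Real.zero_rpow h0] at hH
      rw [hH] at hpos
      exact absurd hpos (lt_irrefl _)
  · -- `H` has at least one vertex and one edge
    have htc := tuples_card H
    have hn : 0 < H.n := by
      rcases Nat.eq_zero_or_pos H.n with h | h
      · have h' : (H.n : ℝ) ^ r = 0 := by
          rw [h, Nat.cast_zero, zero_pow (by omega)]
        rw [← htc, h', div_zero] at hp
        exact absurd hp (lt_irrefl _)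
      · exact h
    have hnR : (0 : ℝ) < H.n := by exact_mod_cast hn
    have hM : 0 < (tuples H).card := by
      rcases Nat.eq_zero_or_pos (tuples H).card with h | h
      · rw [← htc, h] at hp
        rw [Nat.cast_zero, zero_div] at hp
        exact absurd hp (lt_irrefl _)
      · exact h
    have hp1 : density (oneEdge r) H < 1 := by
      rw [← htc, div_lt_one (by positivity)]
      have h1 : (tuples H).card < H.n ^ r := by
        have h2 : tuples H ⊂ univ := by
          rw [ssubset_univ_iff]
          intro h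
          have h3 : (fun _ => ⟨0, hn⟩ : Fin r → Fin H.n) ∈ tuples H := by rw [h]; simp
          simp only [tuples, mem_filter, mem_univ, true_and] at h3
          have h4 := H.uniform _ h3
          have h5 : (univ.image (fun _ => ⟨0, hn⟩ : Fin r → Fin H.n)).card ≤ 1 := by
            apply (card_le_card (t := {⟨0, hn⟩}) ?_).trans (by simp)
            intro w hw
            obtain ⟨_, _, rfl⟩ := mem_image.1 hw
            simp
          omega
        have := card_lt_card h2
        simpa using this
      exact_mod_cast h1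
    by_cases hE : F.edges = ∅
    · -- no edges
      have h1 : density F H = 1 := by
        unfold density homs
        rw [hE]
        have : (univ.filter fun φ : Fin F.n → Fin H.n =>
            ∀ e ∈ (∅ : Finset (Finset (Fin F.n))), e.image φ ∈ H.edges) = univ := by
          apply filter_true_of_mem
          intro φ _ e he
          simp at he
        rw [this]
        simp only [card_univ, Fintype.card_fun, Fintype.card_fin]
        push_cast
        field_simp
      rw [h1] at hH
      by_contra hlt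
      push Not at hlt
      have hspos : 0 < s := lt_of_le_of_lt hE0 hlt
      have := Real.rpow_lt_one hp.le hp1 hspos
      linarith
    · obtain ⟨c, hc⟩ := hF
      have hΔ : 1 ≤ Δ := by
        obtain ⟨e, he⟩ := nonempty_iff_ne_empty.2 hE
        obtain ⟨v, hv⟩ : e.Nonempty := card_pos.1 (by rw [F.uniform e he]; omega)
        refine le_trans ?_ (hdeg v)
        unfold degree
        exact card_pos.2 ⟨e, mem_filter.2 ⟨he, hv⟩⟩
      set K : ℝ := ((2 * (r - 1) * Δ + 1 : ℕ) : ℝ) with hK
      have hK1 : 1 ≤ K := by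
        rw [hK]; exact_mod_cast Nat.le_add_left 1 _
      have h1 := density_lower (F := F) (c := c) (κ := wt F c K) hn hM hc
        (by
          intro s
          rcases s with u | i
          · simp only [wt, Sum.elim_inl]; positivity
          · simp [wt])
        (fun i => by simp [wt]) (wt_ineq hΔ hc hdeg)
      rw [htc] at h1
      have h2 : ∑ u ∈ F.edges.biUnion id, wt F c K (Sum.inl u) ≤
          ((r * (2 * (r - 1) * Δ + 1) ^ r * F.edges.card : ℕ) : ℝ) := by
        calc ∑ u ∈ F.edges.biUnion id, wt F c K (Sum.inl u)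
            ≤ ∑ u ∈ F.edges.biUnion id, K ^ r := by
              apply sum_le_sum
              intro u _
              simp only [wt, Sum.elim_inl]
              exact pow_le_pow_right₀ hK1 (by have := (c u).2; omega)
          _ = ((F.edges.biUnion id).card : ℝ) * K ^ r := by rw [sum_const, nsmul_eq_mul]
          _ ≤ ((F.edges.card * r : ℕ) : ℝ) * K ^ r := by
              gcongr
              apply card_biUnion_le_card_mul
              intro e he
              exact (F.uniform e he).le
          _ = _ := by rw [hK]; push_cast; ring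
      rw [hH] at h1
      exact ((Real.rpow_le_rpow_left_iff_of_base_lt_one hp hp1).1 h1).trans h2

end Q112.Sid
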